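import Mathlib

/-!
Finite bipartite graphs with labelled vertex classes, injective label-preserving
homomorphisms, and the point-line incidence graphs of the Desarguesian planes `PG(2,p)`.
-/

set_option autoImplicit false

namespace Pool.Agent.W_MP_5e7574_co

/-- A finite bipartite graph `(V₁, V₂, E)` with labelled vertex classes, `E ⊆ V₁ × V₂`. -/
structure BipGraph where
  V₁ : Type
  V₂ : Type
  E : V₁ → V₂ → Prop
  finite₁ : Finite V₁
  finite₂ : Finite V₂

/-- The graph has at least one edge. -/
def BipGraph.HasEdge (H : BipGraph) : Prop := ∃ x y, H.E x y

/-- Label-preserving homomorphisms from `H` to `G` that are injective on vertices: a map of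
first classes and a map of second classes, both injective, sending edges to edges. -/
def InjHom (H G : BipGraph) : Type :=
  {f : (H.V₁ → G.V₁) × (H.V₂ → G.V₂) //
    Function.Injective f.1 ∧ Function.Injective f.2 ∧ ∀ x y, H.E x y → G.E (f.1 x) (f.2 y)}

/-- The number `inj(H, G)` of injective label-preserving homomorphisms. -/
noncomputable def inj (H G : BipGraph) : ℕ := Nat.card (InjHom H G)

/-- The point-line incidence graph of the projective plane `PG(2,F)` over a finite field `F`:
points are the one-dimensional subspaces of `F³`, lines are the two-dimensional subspaces of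
`F³`, and a point is joined to a line iff it is contained in it. -/
def planeGraph (F : Type) [Field F] [Finite F] : BipGraph where
  V₁ := {W : Submodule F (Fin 3 → F) // Module.finrank F W = 1}
  V₂ := {W : Submodule F (Fin 3 → F) // Module.finrank F W = 2}
  E x l := x.1 ≤ l.1
  finite₁ := by
    have : Finite (Submodule F (Fin 3 → F)) :=
      Finite.of_injective (fun W => (W : Set (Fin 3 → F))) SetLike.coe_injective
    infer_instance
  finite₂ := by
    have : Finite (Submodule F (Fin 3 → F)) :=
      Finite.of_injective (fun W => (W : Set (Fin 3 → F))) SetLike.coe_injective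
    infer_instance

/-- `log_q k` in the extended reals, with `log_q 0 = -∞`. -/
noncomputable def extLog (q k : ℕ) : EReal :=
  if k = 0 then ⊥ else ((Real.logb q k : ℝ) : EReal)

/-- `log_p inj(H, G_p)` for a prime `p`, where `G_p` is the incidence graph of `PG(2,p)`. -/
noncomputable def logInj (H : BipGraph) (p : ℕ) [Fact p.Prime] : EReal :=
  extLog p (inj H (planeGraph (ZMod p)))

/-- The sequence `(log_p inj(H, G_p))_p`, with `p` running through the primes in increasing
order: its `n`-th term belongs to the `n`-th prime (counting from `0`). -/
noncomputable def logInjSeq (H : BipGraph) (n : ℕ) : EReal :=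
  haveI : Fact (Nat.nth Nat.Prime n).Prime := ⟨Nat.prime_nth_prime n⟩
  logInj H (Nat.nth Nat.Prime n)

end Pool.Agent.W_MP_5e7574_co
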