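import Pool.Agent.W_MP_5e7574_co.Proof

/-!
Existence of the Moebius-Kantor configuration in `PG(2,K)` when `x^2 - x + 1` has a root, and
the arithmetic of that polynomial modulo primes.
-/

set_option autoImplicit false

namespace Pool.Agent.W_MP_5e7574_co

open Module

section backward

variable {K : Type} [Field K]

/-- The eight points. -/
def ptVec (b : K) : Fin 8 → (Fin 3 → K) :=
  ![![1, 0, 0], ![0, 1, 0], ![0, 0, 1], ![1, 1, 0], ![0, 1, b], ![1, 1, 1], ![b, 1, 1],
    ![1, 0, 1 - b]]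

/-- Coefficients of the eight lines. -/
def lnVec (b : K) : Fin 8 → (Fin 3 → K) :=
  ![![0, 0, 1], ![1, 0, 0], ![1, -1, 0], ![b, -b, 1], ![1 - b, b, -1], ![0, 1, -1],
    ![b - 1, 0, 1], ![0, 1, 0]]

/-- The functional with coefficient vector `n`. -/
noncomputable def fn (n : Fin 3 → K) : (Fin 3 → K) →ₗ[K] K := Fintype.linearCombination K n

lemma fn_apply (n x : Fin 3 → K) : fn n x = x 0 * n 0 + x 1 * n 1 + x 2 * n 2 := by
  simp [fn, Fintype.linearCombination_apply, Fin.sum_univ_three]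

lemma finrank_ker_fn (n : Fin 3 → K) (hn : n ≠ 0) : finrank K (LinearMap.ker (fn n)) = 2 := by
  have hne : fn n ≠ 0 := by
    intro h
    apply hn
    ext i
    have := congrArg (fun ψ : (Fin 3 → K) →ₗ[K] K => ψ (Pi.single i 1)) h
    simp only [fn_apply, LinearMap.zero_apply] at this
    fin_cases i <;> simpa using this
  have := Module.Dual.finrank_ker_add_one_of_ne_zero (f := fn n) hne
  simp at this
  omega

lemma incidence (b : K) (hb : b * b - b + 1 = 0) (i l : Fin 8) :
    fn (lnVec b l) (ptVec b i) = 0 ↔ (i = l ∨ i = l + 1 ∨ i = l + 3) := by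
  have hb0 : b ≠ 0 := by
    intro h
    rw [h] at hb
    simp at hb
  have hb1 : b - 1 ≠ 0 := by
    intro h
    rw [sub_eq_zero.mp h] at hb
    simp at hb
  have hb1' : 1 - b ≠ 0 := by
    intro h
    apply hb1
    rw [← neg_sub, h, neg_zero]
  rw [fn_apply]
  fin_cases l <;> fin_cases i <;> simp [ptVec, lnVec]
  all_goals first
    | exact hb0
    | exact hb1
    | exact hb1'
    | linear_combination hb
    | (intro h; apply hb1; linear_combination h)
    | (intro h; apply hb1'; linear_combination h)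
    | (intro h; apply hb0; linear_combination h + hb)

lemma ptVec_ne_zero (b : K) (hb : b * b - b + 1 = 0) (i : Fin 8) : ptVec b i ≠ 0 := by
  intro h
  -- every point misses some line
  have hmiss : ∀ i : Fin 8, ∃ l : Fin 8, ¬ (i = l ∨ i = l + 1 ∨ i = l + 3) := by decide
  obtain ⟨l, hl⟩ := hmiss i
  apply hl
  rw [← incidence b hb, h, map_zero]

lemma lnVec_ne_zero (b : K) (hb : b * b - b + 1 = 0) (l : Fin 8) : lnVec b l ≠ 0 := by
  intro h
  have hmiss : ∀ l : Fin 8, ∃ i : Fin 8, ¬ (i = l ∨ i = l + 1 ∨ i = l + 3) := by decide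
  obtain ⟨i, hi⟩ := hmiss l
  apply hi
  rw [← incidence b hb, h, fn_apply]
  simp

/-- A root of `x^2 - x + 1` gives an injective homomorphism of the Moebius-Kantor graph into
`PG(2,K)`. -/
theorem injHom_of_root [Finite K] (b : K) (hb : b * b - b + 1 = 0) :
    Nonempty (InjHom mk8 (planeGraph K)) := by
  let f : Fin 8 → {W : Submodule K (Fin 3 → K) // finrank K W = 1} := fun i =>
    ⟨Submodule.span K {ptVec b i}, finrank_span_singleton (ptVec_ne_zero b hb i)⟩
  let g : Fin 8 → {W : Submodule K (Fin 3 → K) // finrank K W = 2} := fun l =>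
    ⟨LinearMap.ker (fn (lnVec b l)), finrank_ker_fn _ (lnVec_ne_zero b hb l)⟩
  have hle : ∀ i l, (f i).1 ≤ (g l).1 ↔ (i = l ∨ i = l + 1 ∨ i = l + 3) := by
    intro i l
    rw [← incidence b hb i l]
    simp [f, g, Submodule.span_singleton_le_iff_mem]
  have hsep1 : ∀ i j : Fin 8, i ≠ j → ∃ l : Fin 8, (i = l ∨ i = l + 1 ∨ i = l + 3) ∧
      ¬ (j = l ∨ j = l + 1 ∨ j = l + 3) := by decide
  have hsep2 : ∀ l m : Fin 8, l ≠ m → ∃ i : Fin 8, (i = l ∨ i = l + 1 ∨ i = l + 3) ∧
      ¬ (i = m ∨ i = m + 1 ∨ i = m + 3) := by decide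
  refine ⟨⟨(f, g), ?_, ?_, ?_⟩⟩
  · intro (i : Fin 8) (j : Fin 8) hij
    have hij' : f i = f j := hij
    by_contra hne
    obtain ⟨l, h1, h2⟩ := hsep1 i j hne
    exact h2 ((hle j l).mp (hij' ▸ (hle i l).mpr h1))
  · intro (l : Fin 8) (m : Fin 8) hlm
    have hlm' : g l = g m := hlm
    by_contra hne
    obtain ⟨i, h1, h2⟩ := hsep2 l m hne
    exact h2 ((hle i m).mp (hlm' ▸ (hle i l).mpr h1))
  · intro i l h
    exact (hle i l).mpr h

end backward

/-! ### The polynomial modulo primes -/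

lemma no_root (p : ℕ) [Fact p.Prime] (hp : p % 3 = 2) (b : ZMod p) : b * b - b + 1 ≠ 0 := by
  intro hb
  have hp2 := (Fact.out : p.Prime).two_le
  have hb0 : b ≠ 0 := by
    intro h
    rw [h] at hb
    simp at hb
  have hcube : (-b) ^ 3 = 1 := by linear_combination -(b + 1) * hb
  have hfermat : (-b) ^ (p - 1) = 1 := ZMod.pow_card_sub_one_eq_one (neg_ne_zero.mpr hb0)
  obtain ⟨k, hk⟩ : ∃ k, p - 1 = 3 * k + 1 := ⟨(p - 2) / 3, by omega⟩
  rw [hk, pow_succ, pow_mul, hcube, one_pow, one_mul] at hfermat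
  have hb1 : b = -1 := by rw [← hfermat, neg_neg]
  have h3 : (3 : ZMod p) = 0 := by
    rw [hb1] at hb
    linear_combination hb
  have : (p : ℕ) ∣ 3 := by
    have h3' : ((3 : ℕ) : ZMod p) = 0 := by exact_mod_cast h3
    exact (ZMod.natCast_eq_zero_iff 3 p).mp h3'
  have hle := Nat.le_of_dvd (by norm_num) this
  interval_cases p
  all_goals omega

lemma exists_root (p : ℕ) [Fact p.Prime] (hp : p % 3 = 1) : ∃ b : ZMod p, b * b - b + 1 = 0 := by
  have hp2 := (Fact.out : p.Prime).two_le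
  have : Fact (Nat.Prime 3) := ⟨Nat.prime_three⟩
  have hcard : 3 ∣ Fintype.card (ZMod p)ˣ := by
    rw [ZMod.card_units]
    omega
  obtain ⟨u, hu⟩ := exists_prime_orderOf_dvd_card 3 hcard
  have hu3 : (u : ZMod p) ^ 3 = 1 := by
    rw [← Units.val_pow_eq_pow_val, ← hu, pow_orderOf_eq_one]
    rfl
  have hu1 : (u : ZMod p) - 1 ≠ 0 := by
    intro h
    have : u = 1 := Units.ext (sub_eq_zero.mp h)
    rw [this, orderOf_one] at hu
    norm_num at hu
  refine ⟨-(u : ZMod p), ?_⟩
  have : ((u : ZMod p) - 1) * ((u : ZMod p) ^ 2 + u + 1) = 0 := by linear_combination hu3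
  have h0 := (mul_eq_zero.mp this).resolve_left hu1
  linear_combination h0

/-! ### The sequence -/

lemma logInj_eq_bot (p : ℕ) [Fact p.Prime] (hp : p % 3 = 2) : logInj mk8 p = ⊥ := by
  have : IsEmpty (InjHom mk8 (planeGraph (ZMod p))) := by
    constructor
    intro F
    obtain ⟨b, hb⟩ := root_of_injHom F
    exact no_root p hp b hb
  simp [logInj, extLog, inj]

instance finite_injHom (H G : BipGraph) : Finite (InjHom H G) := by
  have := H.finite₁
  have := H.finite₂
  have := G.finite₁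
  have := G.finite₂
  unfold InjHom
  infer_instance

lemma logInj_nonneg (p : ℕ) [Fact p.Prime] (hp : p % 3 = 1) : 0 ≤ logInj mk8 p := by
  obtain ⟨b, hb⟩ := exists_root p hp
  have : Nonempty (InjHom mk8 (planeGraph (ZMod p))) := injHom_of_root b hb
  have hpos : 0 < inj mk8 (planeGraph (ZMod p)) := Nat.card_pos
  rw [logInj, extLog, if_neg hpos.ne']
  rw [← EReal.coe_zero, EReal.coe_le_coe_iff]
  apply Real.logb_nonneg
  · exact_mod_cast (Fact.out : p.Prime).one_lt
  · exact_mod_cast hpos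

lemma frequently_of_infinite (P : ℕ → Prop) (Q : ℕ → Prop)
    (hPQ : ∀ n, ∃ p, n < p ∧ p.Prime ∧ Q p)
    (h : ∀ p n, Nat.nth Nat.Prime n = p → Q p → P n) : ∃ᶠ n in Filter.atTop, P n := by
  rw [Filter.frequently_atTop]
  intro N
  obtain ⟨p, hNp, hp, hQ⟩ := hPQ (Nat.nth Nat.Prime N)
  refine ⟨Nat.count Nat.Prime p, ?_, h p _ (Nat.nth_count hp) hQ⟩
  by_contra hlt
  push Not at hlt
  have h2 := Nat.nth_monotone Nat.infinite_setOfPred_prime hlt.le
  have h3 : Nat.nth Nat.Prime (Nat.count Nat.Prime p) = p := Nat.nth_count hp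
  have h4 : p ≤ Nat.nth Nat.Prime N := h3 ▸ h2
  exact absurd (hNp.trans_le h4) (lt_irrefl _)

theorem liminf_eq_bot : Filter.liminf (logInjSeq mk8) Filter.atTop = ⊥ := by
  rw [← le_bot_iff]
  apply Filter.liminf_le_of_frequently_le'
  apply frequently_of_infinite _ (fun p => p % 3 = 2)
  · intro n
    obtain ⟨p, hp, hpp, hmod⟩ := Nat.forall_exists_prime_gt_and_modEq n
      (show (3 : ℕ) ≠ 0 by norm_num) (show Nat.Coprime 2 3 by norm_num)
    exact ⟨p, hp, hpp, hmod⟩
  · rintro p n rfl hQ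
    have : Fact (Nat.nth Nat.Prime n).Prime := ⟨Nat.prime_nth_prime n⟩
    exact (logInj_eq_bot _ hQ).le

theorem zero_le_limsup : 0 ≤ Filter.limsup (logInjSeq mk8) Filter.atTop := by
  apply Filter.le_limsup_of_frequently_le'
  apply frequently_of_infinite _ (fun p => p % 3 = 1)
  · intro n
    obtain ⟨p, hp, hpp, hmod⟩ := Nat.forall_exists_prime_gt_and_modEq n
      (show (3 : ℕ) ≠ 0 by norm_num) (show Nat.Coprime 1 3 by norm_num)
    exact ⟨p, hp, hpp, hmod⟩
  · rintro p n rfl hQ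
    have : Fact (Nat.nth Nat.Prime n).Prime := ⟨Nat.prime_nth_prime n⟩
    exact logInj_nonneg _ hQ

end Pool.Agent.W_MP_5e7574_co
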