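import Pool.Agent.W_MP_5e7574_co.Defs

/-!
The Moebius-Kantor configuration embeds in `PG(2,K)` iff `x^2 - x + 1` has a root in `K`.
-/

set_option autoImplicit false

namespace Pool.Agent.W_MP_5e7574_co

open Module

/-- The incidence graph of the Moebius-Kantor configuration: points and lines are indexed by
`ZMod 8` and line `l` contains the points `l, l+1, l+3`. -/
def mk8 : BipGraph where
  V₁ := Fin 8
  V₂ := Fin 8
  E i l := i = l ∨ i = l + 1 ∨ i = l + 3
  finite₁ := inferInstance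
  finite₂ := inferInstance

lemma mk8_hasEdge : mk8.HasEdge := ⟨(0 : Fin 8), (0 : Fin 8), Or.inl rfl⟩

section forward

variable {K : Type} [Field K]

/-- Two independent vectors determine the two-dimensional subspace containing them. -/
lemma eq_span_pair {V : Type} [AddCommGroup V] [Module K V] [FiniteDimensional K V]
    (W : Submodule K V) (hW : finrank K W = 2)
    (u v : V) (huv : LinearIndependent K ![u, v]) (hu : u ∈ W) (hv : v ∈ W) :
    W = Submodule.span K (Set.range ![u, v]) := by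
  symm
  apply Submodule.eq_of_le_of_finrank_eq
  · rw [Submodule.span_le]
    rintro _ ⟨i, rfl⟩
    fin_cases i
    · exact hu
    · exact hv
  · rw [finrank_span_eq_card huv, hW]
    rfl

/-- The algebraic core: coordinates of a Moebius-Kantor configuration in the plane give a root
of `x^2 - x + 1`. -/
lemma algebra_core (x3 y3 y4 z4 x5 y5 z5 x6 y6 z6 x7 z7 : K)
    (h5z : z5 ≠ 0) (h3 : x3 ≠ 0) (h4 : y4 ≠ 0)
    (h6 : y6 ≠ 0) (h7x : x7 ≠ 0)
    (E235 : x3 * y5 = y3 * x5)
    (E346 : x3 * (y4 * z6 - z4 * y6) + y3 * z4 * x6 = 0)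
    (E457 : y4 * (x5 * z7 - z5 * x7) + z4 * (y5 * x7) = 0)
    (E560 : y5 * z6 = z5 * y6)
    (E671 : x6 * z7 = z6 * x7) : ∃ b : K, b * b - b + 1 = 0 := by
  have F0 : x5 * z7 * (y4 * z6 - z4 * y6) + y5 * z4 * z6 * x7 = 0 := by
    have : x3 * (x5 * z7 * (y4 * z6 - z4 * y6) + y5 * z4 * z6 * x7) = 0 := by
      linear_combination (x5 * z7) * E346 + (z4 * z6 * x7) * E235 - (y3 * z4 * x5) * E671
    exact (mul_eq_zero.mp this).resolve_left h3
  have F1 : x5 * z7 * (y4 * z5 - z4 * y5) + y5 * z4 * z5 * x7 = 0 := by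
    have : y6 * (x5 * z7 * (y4 * z5 - z4 * y5) + y5 * z4 * z5 * x7) = 0 := by
      linear_combination y5 * F0 - (x5 * z7 * y4 + y5 * z4 * x7) * E560
    exact (mul_eq_zero.mp this).resolve_left h6
  have F2 : (z5 * y4 - y5 * z4) ^ 2 + (z5 * y4) * (y5 * z4) = 0 := by
    have : x7 * ((z5 * y4 - y5 * z4) ^ 2 + (z5 * y4) * (y5 * z4)) = 0 := by
      linear_combination y4 * F1 - (y4 * z5 - z4 * y5) * E457
    exact (mul_eq_zero.mp this).resolve_left h7x
  have hY : z5 * y4 ≠ 0 := mul_ne_zero h5z h4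
  refine ⟨(y5 * z4) / (z5 * y4), ?_⟩
  field_simp
  linear_combination F2

/-- Three vectors of `K³` killed by a nonzero functional have determinant zero. -/
lemma det_zero (ψ : (Fin 3 → K) →ₗ[K] K) (hψ : ψ ≠ 0) (x y z : Fin 3 → K)
    (hx : ψ x = 0) (hy : ψ y = 0) (hz : ψ z = 0) :
    x 0 * (y 1 * z 2 - y 2 * z 1) - x 1 * (y 0 * z 2 - y 2 * z 0)
      + x 2 * (y 0 * z 1 - y 1 * z 0) = 0 := by
  set a : Fin 3 → K := fun i => ψ fun j => if i = j then 1 else 0 with ha
  have hexp : ∀ w : Fin 3 → K, ψ w = w 0 * a 0 + w 1 * a 1 + w 2 * a 2 := by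
    intro w
    rw [LinearMap.pi_apply_eq_sum_univ ψ w, Fin.sum_univ_three]
    simp [ha, smul_eq_mul]
  rw [hexp] at hx hy hz
  have hne : a 0 ≠ 0 ∨ a 1 ≠ 0 ∨ a 2 ≠ 0 := by
    by_contra hcon
    push Not at hcon
    apply hψ
    ext w
    simp [hexp, hcon.1, hcon.2.1, hcon.2.2]
  rcases hne with h | h | h
  · have : a 0 * (x 0 * (y 1 * z 2 - y 2 * z 1) - x 1 * (y 0 * z 2 - y 2 * z 0)
      + x 2 * (y 0 * z 1 - y 1 * z 0)) = 0 := by
      linear_combination (y 1 * z 2 - y 2 * z 1) * hx - (x 1 * z 2 - x 2 * z 1) * hy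
        + (x 1 * y 2 - x 2 * y 1) * hz
    exact (mul_eq_zero.mp this).resolve_left h
  · have : a 1 * (x 0 * (y 1 * z 2 - y 2 * z 1) - x 1 * (y 0 * z 2 - y 2 * z 0)
      + x 2 * (y 0 * z 1 - y 1 * z 0)) = 0 := by
      linear_combination (y 2 * z 0 - y 0 * z 2) * hx - (x 2 * z 0 - x 0 * z 2) * hy
        + (x 2 * y 0 - x 0 * y 2) * hz
    exact (mul_eq_zero.mp this).resolve_left h
  · have : a 2 * (x 0 * (y 1 * z 2 - y 2 * z 1) - x 1 * (y 0 * z 2 - y 2 * z 0)
      + x 2 * (y 0 * z 1 - y 1 * z 0)) = 0 := by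
      linear_combination (y 0 * z 1 - y 1 * z 0) * hx - (x 0 * z 1 - x 1 * z 0) * hy
        + (x 0 * y 1 - x 1 * y 0) * hz
    exact (mul_eq_zero.mp this).resolve_left h

/-- An injective homomorphism from the Moebius-Kantor graph into `PG(2,K)` yields a root of
`x^2 - x + 1` in `K`. -/
theorem root_of_injHom [Finite K] (F : InjHom mk8 (planeGraph K)) :
    ∃ b : K, b * b - b + 1 = 0 := by
  classical
  obtain ⟨⟨f, g⟩, hf, hg, hE⟩ := F
  change Fin 8 → {W : Submodule K (Fin 3 → K) // finrank K W = 1} at f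
  change Fin 8 → {W : Submodule K (Fin 3 → K) // finrank K W = 2} at g
  have hE' : ∀ i l : Fin 8, (i = l ∨ i = l + 1 ∨ i = l + 3) → (f i).1 ≤ (g l).1 :=
    fun i l h => hE i l h
  have hf' : Function.Injective f := hf
  have hg' : Function.Injective g := hg
  -- spanning vectors of the points
  have hv : ∀ i : Fin 8, ∃ v : Fin 3 → K, v ∈ (f i).1 ∧ v ≠ 0 ∧ ∀ w ∈ (f i).1, ∃ c : K,
      c • v = w := by
    intro i
    obtain ⟨v, hv0, hv⟩ := finrank_eq_one_iff'.mp (f i).2
    refine ⟨v.1, v.2, fun h => hv0 (Subtype.ext h), fun w hw => ?_⟩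
    obtain ⟨c, hc⟩ := hv ⟨w, hw⟩
    exact ⟨c, congrArg Subtype.val hc⟩
  choose v hvmem hvne hvspan using hv
  have hmem : ∀ i l : Fin 8, (i = l ∨ i = l + 1 ∨ i = l + 3) → v i ∈ (g l).1 :=
    fun i l h => hE' i l h (hvmem i)
  -- distinct points are independent
  have hprop : ∀ i j : Fin 8, i ≠ j → ∀ c : K, v j ≠ c • v i := by
    intro i j hij c hc
    apply hij
    apply hf'
    apply Subtype.ext
    symm
    apply Submodule.eq_of_le_of_finrank_eq
    · intro w hw
      obtain ⟨d, hd⟩ := hvspan j w hw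
      rw [← hd, hc]
      exact Submodule.smul_mem _ _ (Submodule.smul_mem _ _ (hvmem i))
    · rw [(f i).2, (f j).2]
  have hind : ∀ i j : Fin 8, i ≠ j → LinearIndependent K ![v i, v j] := by
    intro i j hij
    rw [LinearIndependent.pair_iff]
    intro s t hst
    have ht : t = 0 := by
      by_contra ht
      apply hprop i j hij (-(t⁻¹ * s))
      have : t • v j = -(s • v i) := by
        rw [eq_neg_iff_add_eq_zero, add_comm]
        exact hst
      calc v j = t⁻¹ • (t • v j) := by rw [smul_smul, inv_mul_cancel₀ ht, one_smul]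
        _ = -(t⁻¹ * s) • v i := by rw [this, smul_neg, smul_smul, neg_smul]
    subst ht
    rw [zero_smul, add_zero] at hst
    exact ⟨(smul_eq_zero.mp hst).resolve_right (hvne i), rfl⟩
  -- two points lie on at most one line
  have huniq : ∀ i j l m : Fin 8, i ≠ j → v i ∈ (g l).1 → v j ∈ (g l).1 → v i ∈ (g m).1 →
      v j ∈ (g m).1 → l = m := by
    intro i j l m hij h1 h2 h3 h4
    apply hg'
    apply Subtype.ext
    rw [eq_span_pair _ (g l).2 _ _ (hind i j hij) h1 h2,
      ← eq_span_pair _ (g m).2 _ _ (hind i j hij) h3 h4]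
  have hlin : LinearIndependent K ![v 0, v 1, v 2] := by
    have : (![v 0, v 1, v 2] : Fin 3 → (Fin 3 → K)) = Fin.cons (v 0) ![v 1, v 2] := rfl
    rw [this, linearIndependent_finCons]
    refine ⟨hind 1 2 (by decide), fun h => ?_⟩
    have hL : (g 1).1 = Submodule.span K (Set.range ![v 1, v 2]) :=
      eq_span_pair _ (g 1).2 _ _ (hind 1 2 (by decide)) (hmem 1 1 (by decide))
        (hmem 2 1 (by decide))
    rw [← hL] at h
    have := huniq 0 1 0 1 (by decide) (hmem 0 0 (by decide)) (hmem 1 0 (by decide)) h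
      (hmem 1 1 (by decide))
    exact absurd this (by decide)
  let B : Basis (Fin 3) K (Fin 3 → K) :=
    basisOfLinearIndependentOfCardEqFinrank hlin (by simp)
  have hB : ∀ i, B i = (![v 0, v 1, v 2] : Fin 3 → (Fin 3 → K)) i := by
    intro i
    simp [B]
  have hB0 : B 0 = v 0 := hB 0
  have hB1 : B 1 = v 1 := hB 1
  have hB2 : B 2 = v 2 := hB 2
  set c : Fin 8 → (Fin 3 → K) := fun i => B.equivFun (v i) with hc
  have hexp : ∀ i, v i = c i 0 • v 0 + c i 1 • v 1 + c i 2 • v 2 := by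
    intro i
    have := B.sum_equivFun (v i)
    rw [Fin.sum_univ_three, hB0, hB1, hB2] at this
    exact this.symm
  have hc0 : c 0 0 = 1 ∧ c 0 1 = 0 ∧ c 0 2 = 0 := by
    have : c 0 = B.equivFun (B 0) := by rw [hB0]
    rw [this]
    simp [Basis.equivFun_self]
  have hc1 : c 1 0 = 0 ∧ c 1 1 = 1 ∧ c 1 2 = 0 := by
    have : c 1 = B.equivFun (B 1) := by rw [hB1]
    rw [this]
    simp [Basis.equivFun_self]
  have hc2 : c 2 0 = 0 ∧ c 2 1 = 0 ∧ c 2 2 = 1 := by
    have : c 2 = B.equivFun (B 2) := by rw [hB2]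
    rw [this]
    simp [Basis.equivFun_self]
  -- collinear triples have determinant zero
  have hdet : ∀ i j k l : Fin 8, (i = l ∨ i = l + 1 ∨ i = l + 3) →
      (j = l ∨ j = l + 1 ∨ j = l + 3) → (k = l ∨ k = l + 1 ∨ k = l + 3) →
      c i 0 * (c j 1 * c k 2 - c j 2 * c k 1) - c i 1 * (c j 0 * c k 2 - c j 2 * c k 0)
      + c i 2 * (c j 0 * c k 1 - c j 1 * c k 0) = 0 := by
    intro i j k l hi hj hk
    have hlt : (g l).1 < ⊤ := by
      rw [lt_top_iff_ne_top]
      intro h
      have h2 := (g l).2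
      rw [h] at h2
      simp at h2
    obtain ⟨φ, hφ, hle⟩ := Submodule.exists_le_ker_of_lt_top _ hlt
    have hker : ∀ i : Fin 8, (i = l ∨ i = l + 1 ∨ i = l + 3) →
        (φ ∘ₗ B.equivFun.symm.toLinearMap) (c i) = 0 := by
      intro i hi
      have : φ (v i) = 0 := hle (hmem i l hi)
      simpa [hc] using this
    refine det_zero (φ ∘ₗ B.equivFun.symm.toLinearMap) ?_ _ _ _ (hker i hi) (hker j hj)
      (hker k hk)
    intro h
    apply hφ
    ext w
    have := congrArg (fun ψ : (Fin 3 → K) →ₗ[K] K => ψ (B.equivFun (Pi.single w 1))) h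
    simpa using this
  -- coordinates that vanish
  have hz3 : c 3 2 = 0 := by
    have := hdet 0 1 3 0 (by decide) (by decide) (by decide)
    rw [hc0.1, hc0.2.1, hc0.2.2, hc1.1, hc1.2.1, hc1.2.2] at this
    linear_combination this
  have hx4 : c 4 0 = 0 := by
    have := hdet 1 2 4 1 (by decide) (by decide) (by decide)
    rw [hc2.1, hc2.2.1, hc2.2.2, hc1.1, hc1.2.1, hc1.2.2] at this
    linear_combination this
  have hy7 : c 7 1 = 0 := by
    have := hdet 7 0 2 7 (by decide) (by decide) (by decide)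
    rw [hc0.1, hc0.2.1, hc0.2.2, hc2.1, hc2.2.1, hc2.2.2] at this
    linear_combination -this
  have E235 : c 3 0 * c 5 1 = c 3 1 * c 5 0 := by
    have := hdet 2 3 5 2 (by decide) (by decide) (by decide)
    rw [hc2.1, hc2.2.1, hc2.2.2] at this
    linear_combination this
  have E346 : c 3 0 * (c 4 1 * c 6 2 - c 4 2 * c 6 1) + c 3 1 * c 4 2 * c 6 0 = 0 := by
    have := hdet 3 4 6 3 (by decide) (by decide) (by decide)
    rw [hz3, hx4] at this
    linear_combination this
  have E457 : c 4 1 * (c 5 0 * c 7 2 - c 5 2 * c 7 0) + c 4 2 * (c 5 1 * c 7 0) = 0 := by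
    have := hdet 4 5 7 4 (by decide) (by decide) (by decide)
    rw [hx4, hy7] at this
    linear_combination -this
  have E560 : c 5 1 * c 6 2 = c 5 2 * c 6 1 := by
    have := hdet 5 6 0 5 (by decide) (by decide) (by decide)
    rw [hc0.1, hc0.2.1, hc0.2.2] at this
    linear_combination this
  have E671 : c 6 0 * c 7 2 = c 6 2 * c 7 0 := by
    have := hdet 6 7 1 6 (by decide) (by decide) (by decide)
    rw [hc1.1, hc1.2.1, hc1.2.2] at this
    linear_combination -this
  -- nondegeneracy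
  have h5x : c 5 0 ≠ 0 := by
    intro h
    have h5 : v 5 ∈ (g 1).1 := by
      rw [hexp 5, h, zero_smul, zero_add]
      exact Submodule.add_mem _ (Submodule.smul_mem _ _ (hmem 1 1 (by decide)))
        (Submodule.smul_mem _ _ (hmem 2 1 (by decide)))
    have := huniq 5 2 1 2 (by decide) h5 (hmem 2 1 (by decide)) (hmem 5 2 (by decide))
      (hmem 2 2 (by decide))
    exact absurd this (by decide)
  have h5y : c 5 1 ≠ 0 := by
    intro h
    have h5 : v 5 ∈ (g 7).1 := by
      rw [hexp 5, h, zero_smul, add_zero]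
      exact Submodule.add_mem _ (Submodule.smul_mem _ _ (hmem 0 7 (by decide)))
        (Submodule.smul_mem _ _ (hmem 2 7 (by decide)))
    have := huniq 5 2 7 2 (by decide) h5 (hmem 2 7 (by decide)) (hmem 5 2 (by decide))
      (hmem 2 2 (by decide))
    exact absurd this (by decide)
  have h5z : c 5 2 ≠ 0 := by
    intro h
    have h5 : v 5 ∈ (g 0).1 := by
      rw [hexp 5, h, zero_smul, add_zero]
      exact Submodule.add_mem _ (Submodule.smul_mem _ _ (hmem 0 0 (by decide)))
        (Submodule.smul_mem _ _ (hmem 1 0 (by decide)))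
    have := huniq 5 0 0 5 (by decide) h5 (hmem 0 0 (by decide)) (hmem 5 5 (by decide))
      (hmem 0 5 (by decide))
    exact absurd this (by decide)
  have h3x : c 3 0 ≠ 0 := by
    intro h
    rw [h, zero_mul] at E235
    have h31 : c 3 1 = 0 := (mul_eq_zero.mp E235.symm).resolve_right h5x
    apply hvne 3
    rw [hexp 3, h, h31, hz3]
    simp
  have h4y : c 4 1 ≠ 0 := by
    intro h
    apply hprop 2 4 (by decide) (c 4 2)
    conv_lhs => rw [hexp 4, hx4, h]
    simp
  have h6y : c 6 1 ≠ 0 := by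
    intro h
    rw [h, mul_zero] at E560
    have h62 : c 6 2 = 0 := (mul_eq_zero.mp E560).resolve_left h5y
    apply hprop 0 6 (by decide) (c 6 0)
    conv_lhs => rw [hexp 6, h, h62]
    simp
  have h7x : c 7 0 ≠ 0 := by
    intro h
    apply hprop 2 7 (by decide) (c 7 2)
    conv_lhs => rw [hexp 7, hy7, h]
    simp
  exact algebra_core _ _ _ _ _ _ _ _ _ _ _ _ h5z h3x h4y h6y h7x E235 E346 E457 E560 E671

end forward

end Pool.Agent.W_MP_5e7574_co
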